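import Pool.Agent.TH943.PT.Ord
import Pool.Agent.TH943.PT.DkC

/-!
Non-vanishing at `s = 1` of the L-functions of nearly half of the prime twists of the Jacobians of the
hyperelliptic curves `y ^ 2 = D_ℓ(x, a) - t` over `k(t)`, `D_ℓ(x, a)` a Dickson polynomial, and of the
twists by the products of these primes.
-/

set_option autoImplicit false
set_option maxHeartbeats 1000000

open Polynomial

namespace Pool.Agent.Results.MP_60d5ce_nt.DicksonPrimeTwists

/-- The closed points of the affine line over the field `F`: monic irreducible polynomials. -/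
abbrev ClosedPt (F : Type) [Field F] : Type := {P : F[X] // P.Monic ∧ Irreducible P}

section generic

variable {F : Type} [Field F]

/-- The polynomial `d (g(x) - τ)`. -/
noncomputable def twisted (g : F[X]) (d τ : F) : F[X] := C d * (g - C τ)

open Classical in
/-- The quadratic character of the field `F[x] / (Q)` at the class of `h`. -/
noncomputable def quadChar (h Q : F[X]) : ℤ :=
  if Q ∣ h then 0 else if ∃ s : F[X], Q ∣ h - s ^ 2 then 1 else -1

/-- The degree of the closed point `Q` of the line over a field `F` of degree `d`. -/
noncomputable def ptDegree (d : ℕ) (Q : ClosedPt F) : ℕ := d * Q.1.natDegree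

/-- The Euler factor `1 - χ T ^ n`, where `χ` is the value of the quadratic character of the residue
field of `Q` at `h`, and `n` is the degree of `Q`. -/
noncomputable def ptFactor (h : F[X]) (d : ℕ) (Q : ClosedPt F) : PowerSeries ℤ :=
  1 - PowerSeries.C (quadChar h Q.1) * PowerSeries.X ^ ptDegree d Q

end generic

/-- The Euler product: its coefficient of index `n` is that of the product of the factors of degree
at most `n`. -/
noncomputable def eulerProduct {ι : Type} (d : ι → ℕ) (f : ι → PowerSeries ℤ) : PowerSeries ℤ :=
  PowerSeries.mk fun n => PowerSeries.coeff n (∏ᶠ (i : ι) (_ : d i ≤ n), f i)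

/-- The greatest power of two dividing `n`. -/
def twoPart (n : ℕ) : ℕ := 2 ^ padicValNat 2 n

section defs

variable {k : Type} [Field k]

/-- The residue field of the closed point `P` of the `t`-line. -/
def Res (P : ClosedPt k) : Type := AdjoinRoot P.1

noncomputable instance resField (P : ClosedPt k) : Field (Res P) :=
  @AdjoinRoot.instField k _ P.1 ⟨P.2.2⟩

/-- The value at `P` of a polynomial in `t`. -/
noncomputable def value (P : ClosedPt k) (g : k[X]) : Res P := AdjoinRoot.mk P.1 g

/-- The inclusion of the constants in the residue field. -/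
noncomputable def constants (P : ClosedPt k) : k →+* Res P := AdjoinRoot.of P.1

/-- The polynomial `D(t) (f(x) - t)` in `x` over the residue field of the closed point `P`. -/
noncomputable def fibre (f D : k[X]) (P : ClosedPt k) : (Res P)[X] :=
  twisted (f.map (constants P)) (value P D) (value P X)

/-- The closed points of the `(t, x)`-plane with `D(t) ≠ 0`: a closed point of the `t`-line and a
closed point of the `x`-line over its residue field. -/
structure PlanePt (D : k[X]) : Type where
  place : ClosedPt k
  ndvd : ¬ place.1 ∣ D
  point : ClosedPt (Res place)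

/-- The degree of a closed point of the plane. -/
noncomputable def PlanePt.deg {D : k[X]} (z : PlanePt D) : ℕ :=
  ptDegree z.place.1.natDegree z.point

/-- The Euler factor of a closed point of the plane. -/
noncomputable def PlanePt.factor {D : k[X]} (f : k[X]) (z : PlanePt D) : PowerSeries ℤ :=
  ptFactor (fibre f D z.place) z.place.1.natDegree z.point

/-- The `L`-function in the variable `T = q ^ (-s)` of the Jacobian of the hyperelliptic curve
`D(t) y ^ 2 = f(x) - t` over `k(t)`: the product of `1 - χ(z) T ^ deg z` over the closed points `z`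
of the plane with `D(t) ≠ 0`, where `χ(z)` is the quadratic character of the residue field of `z` at
`D(t) (f(x) - t)`. -/
noncomputable def Lfun (f D : k[X]) : PowerSeries ℤ :=
  eulerProduct (fun z : PlanePt D => z.deg) (fun z => z.factor f)

/-- `L(T) = (1 - q T) ^ m G(T)` with an integral polynomial `G`: the function vanishes to order at
least `m` at `s = 1`. -/
def VanishesTo (f D : k[X]) (m : ℕ) : Prop :=
  ∃ G : ℤ[X], Lfun f D = (((1 - C (Nat.card k : ℤ) * X) ^ m * G : ℤ[X]) : PowerSeries ℤ)

/-- The order of vanishing at `s = 1` is at most `r`. -/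
def OrderAtMost (f D : k[X]) (r : ℕ) : Prop := ∀ m : ℕ, VanishesTo f D m → m ≤ r

open Classical in
/-- The monic irreducible factors of a polynomial. -/
noncomputable def primes (g : k[X]) : Finset k[X] :=
  (UniqueFactorizationMonoid.normalizedFactors g).toFinset

/-- The prime `P` is inert in `k(x)` over `k(t)`, `t = f(x)`: the polynomial `P(f(x))` is
irreducible. -/
def IsInert (f P : k[X]) : Prop := Irreducible (P.comp f)

/-- The inert primes of degree `N`. -/
def inertPrimes (f : k[X]) (N : ℕ) : Set (ClosedPt k) := {P | P.1.natDegree = N ∧ IsInert f P.1}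

/-- The sum of the `q ^ d` over the proper divisors `d` of `N`. -/
def properSum (q N : ℕ) : ℕ := ∑ d ∈ N.properDivisors, q ^ d

/-- At least `(ℓ - 1) / (2 ℓ)` of the primes are inert: the number `n` of the inert primes of degree
`N` satisfies `(ℓ - 1) (q ^ N - 1) ≤ 2 ℓ (N n + ∑ q ^ d)`, where `d` runs through the proper divisors
of `N`. -/
def ManyInert (ℓ : ℕ) (f : k[X]) : Prop :=
  ∀ N : ℕ, 0 < N → (ℓ - 1) * (Nat.card k ^ N - 1) ≤
    2 * ℓ * (N * (inertPrimes f N).ncard + properSum (Nat.card k) N)

/-- The Dickson polynomial, with value `y ^ ℓ + (a / y) ^ ℓ` at `y + a / y`. -/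
noncomputable def dick (ℓ : ℕ) (a : k) : k[X] := dickson 1 a ℓ

open Classical in
/-- The number `ℓ - 1`, twice the dimension of the Jacobian, times the sum of the `2 ^ v(deg P)` over
the prime factors `P` of `D` which are not inert. -/
noncomputable def bound (ℓ : ℕ) (f D : k[X]) : ℕ :=
  (ℓ - 1) * ∑ P ∈ (primes D).filter (fun P => ¬ IsInert f P), twoPart P.natDegree

/-- The characteristic of `k` is not two, `ℓ` is an odd prime dividing `q ^ 2 - 1`, and `a ≠ 0`. -/
structure IsAdmissible (ℓ : ℕ) (a : k) : Prop where
  two_ne : (2 : k) ≠ 0
  prime : ℓ.Prime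
  odd : ℓ ≠ 2
  dvd : ℓ ∣ Nat.card k ^ 2 - 1
  ne_zero : a ≠ 0

/-- the equivalence of the two descriptions of the points of the plane -/
noncomputable def planeEquiv (D : k[X]) :
    (Σ P : {P : Pool.Agent.W313.Hyp.MI k // ¬ P.1 ∣ D},
      Pool.Agent.W313.Hyp.MI (Pool.Agent.TH943.HJ.RF P.1)) ≃ PlanePt D where
  toFun z := ⟨z.1.1, z.1.2, z.2⟩
  invFun z := ⟨⟨z.place, z.ndvd⟩, z.point⟩
  left_inv _ := rfl
  right_inv _ := rfl

theorem Lfun_eq (f D : k[X]) : Lfun f D = Pool.Agent.TH943.HJ.LF f D := by
  unfold Lfun Pool.Agent.TH943.HJ.LF eulerProduct Pool.Agent.W343.BSD.eulerProd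
  ext n
  rw [PowerSeries.coeff_mk, PowerSeries.coeff_mk]
  congr 1
  exact (finprod_comp_equiv (planeEquiv D)
    (f := fun z : PlanePt D => ∏ᶠ (_ : z.deg ≤ n), z.factor f)).symm

end defs

/-- **The Birch and Swinnerton-Dyer conjecture for nearly half of the prime twists of Jacobians with
real multiplication.**

Let `k` be a finite field with `q` elements of odd characteristic, `ℓ` an odd prime dividing
`q ^ 2 - 1`, `a ≠ 0` in `k`, and `f = D_ℓ(x, a)` the Dickson polynomial. For a squarefree polynomial
`D` over `k` let `J_D` be the Jacobian, of dimension `g = (ℓ - 1) / 2`, of the curve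
`D(t) y ^ 2 = f(x) - t` over `K = k(t)`. Over an extension of `k` it has real multiplication by the
integers of the maximal real subfield of the field of `ℓ`-th roots of unity. It is not isotrivial. The
surface
`y ^ 2 = f(x) - t` is regular and its fibres over the finite places are semistable, so that the
inertia invariants at the places dividing `D` are zero; they are also zero at infinity. Hence the
L-function of `J_D` is `Lfun`, a polynomial in `T = q ^ (-s)`.

Let `S` be the set of the primes of `k[t]`, that is monic irreducible polynomials `P`, for which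
`P(f(x))` is irreducible. The number of the primes in `S` of degree `N` is at least
`(ℓ - 1) / (2 ℓ) * q ^ N / N` up to a factor `1 + O(q ^ (- N / 2))`, so that at least the proportion
`(ℓ - 1) / (2 ℓ)` of all primes is in `S`. This is a third for elliptic curves, and tends to a half
with the dimension. The order of vanishing of `L(J_D, s)` at `s = 1` is at most `2 g` times the sum of
the `2 ^ v(deg P)` over the prime factors `P` of `D` which are not in `S`.

In particular, if all the prime factors of `D` are in `S`, for instance if `D` is one of the primes in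
`S`, then `L(J_D, s)` does not vanish at `s = 1`. So by Tate's inequality the rank of `J_D(K)` and the
order are both zero, the Tate-Shafarevich group of `J_D` is finite and the Birch and Swinnerton-Dyer
formula holds. -/
theorem result (k : Type) [Field k] [Finite k] (ℓ : ℕ) (a : k) (h : IsAdmissible ℓ a) :
    ManyInert ℓ (dick ℓ a) ∧
      ∀ D : k[X], Squarefree D → OrderAtMost (dick ℓ a) D (bound ℓ (dick ℓ a) D) := by
  refine ⟨fun N hN => Pool.Agent.TH943.PT.dick_inert h.prime h.odd h.ne_zero h.dvd hN, ?_⟩
  rintro D hD m ⟨G, hG⟩
  have hdeg : (dick ℓ a).natDegree = ℓ := Pool.Agent.TH943.PT.dick_natDegree a h.prime.pos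
  have hmon : (dick ℓ a).Monic := Pool.Agent.TH943.PT.dick_monic a h.prime.pos
  have h1 := Pool.Agent.TH943.PT.order_le (f := dick ℓ a) h.two_ne hmon
    (by rw [hdeg]; exact h.prime.odd_of_ne_two h.odd) hD.ne_zero m G (by rw [← Lfun_eq, hG])
  rw [hdeg] at h1
  exact h1

end Pool.Agent.Results.MP_60d5ce_nt.DicksonPrimeTwists
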