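import Pool.Agent.TH943.LP.Pen

/-!
The orders of vanishing at `s = 1` of the L-functions of all quadratic twists of the Jacobians of the
hyperelliptic curves `y ^ 2 = (x - t) f(x)` over `k(t)`, for the irreducible polynomials `f` of odd
degree.
-/

set_option autoImplicit false
set_option maxHeartbeats 1000000

open Polynomial

namespace Pool.Agent.Results.MP_60d5ce_nt.IrreduciblePencils

/-- The closed points of the affine line over the field `F`: monic irreducible polynomials. -/
abbrev ClosedPt (F : Type) [Field F] : Type := {P : F[X] // P.Monic ∧ Irreducible P}

section generic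

variable {F : Type} [Field F]

open Classical in
/-- The quadratic character of the field `F[x] / (Q)` at the class of `h`. -/
noncomputable def quadChar (h Q : F[X]) : ℤ :=
  if Q ∣ h then 0 else if ∃ s : F[X], Q ∣ h - s ^ 2 then 1 else -1

/-- The degree of the closed point `Q` of the line over a field `F` of degree `d`. -/
noncomputable def ptDegree (d : ℕ) (Q : ClosedPt F) : ℕ := d * Q.1.natDegree

/-- The Euler factor `1 - χ T ^ n`, where `χ` is the value of the quadratic character of the residue
field of `Q` at `h`, and `n` is the degree of `Q`. -/
noncomputable def ptFactor (h : F[X]) (d : ℕ) (Q : ClosedPt F) : PowerSeries ℤ :=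
  1 - PowerSeries.C (quadChar h Q.1) * PowerSeries.X ^ ptDegree d Q

end generic

/-- The Euler product: its coefficient of index `n` is that of the product of the factors of degree
at most `n`. -/
noncomputable def eulerProduct {ι : Type} (d : ι → ℕ) (f : ι → PowerSeries ℤ) : PowerSeries ℤ :=
  PowerSeries.mk fun n => PowerSeries.coeff n (∏ᶠ (i : ι) (_ : d i ≤ n), f i)

/-- The product of the factors `1 - χ T ^ n` over the closed points of the affine line over `F`, `χ`
the value of the quadratic character at `h`. -/
noncomputable def lineProduct {F : Type} [Field F] (h : F[X]) : PowerSeries ℤ :=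
  eulerProduct (fun Q : ClosedPt F => ptDegree 1 Q) (fun Q => ptFactor h 1 Q)

/-- The greatest power of two dividing `n`. -/
def twoPart (n : ℕ) : ℕ := 2 ^ padicValNat 2 n

section defs

variable {k : Type} [Field k]

/-- The residue field of the closed point `P` of the `t`-line. -/
def Res (P : ClosedPt k) : Type := AdjoinRoot P.1

noncomputable instance resField (P : ClosedPt k) : Field (Res P) :=
  @AdjoinRoot.instField k _ P.1 ⟨P.2.2⟩

/-- The value at `P` of a polynomial in `t`. -/
noncomputable def value (P : ClosedPt k) (g : k[X]) : Res P := AdjoinRoot.mk P.1 g

/-- The inclusion of the constants in the residue field. -/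
noncomputable def constants (P : ClosedPt k) : k →+* Res P := AdjoinRoot.of P.1

/-- The polynomial `D(t) (x - t) f(x)` in `x` over the residue field of the closed point `P`. -/
noncomputable def fibre (f D : k[X]) (P : ClosedPt k) : (Res P)[X] :=
  C (value P D) * ((X - C (value P X)) * f.map (constants P))

/-- The closed points of the `(t, x)`-plane with `D(t) ≠ 0`: a closed point of the `t`-line and a
closed point of the `x`-line over its residue field. -/
structure PlanePt (D : k[X]) : Type where
  place : ClosedPt k
  ndvd : ¬ place.1 ∣ D
  point : ClosedPt (Res place)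

/-- The degree of a closed point of the plane. -/
noncomputable def PlanePt.deg {D : k[X]} (z : PlanePt D) : ℕ :=
  ptDegree z.place.1.natDegree z.point

/-- The Euler factor of a closed point of the plane. -/
noncomputable def PlanePt.factor {D : k[X]} (f : k[X]) (z : PlanePt D) : PowerSeries ℤ :=
  ptFactor (fibre f D z.place) z.place.1.natDegree z.point

open Classical in
/-- The Euler factor at `t = ∞`: if the degree of `D` is odd then the reduction of the curve is
`y ^ 2 = - c f(x)`, `c` the leading coefficient of `D`; otherwise the factor is one. -/
noncomputable def infFactor (f D : k[X]) : PowerSeries ℤ :=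
  if Odd D.natDegree then lineProduct (C (-D.leadingCoeff) * f) else 1

/-- The `L`-function in the variable `T = q ^ (-s)` of the Jacobian of the hyperelliptic curve
`D(t) y ^ 2 = (x - t) f(x)` over `k(t)`, `f` monic of odd degree: the product of `1 - χ(z) T ^ deg z`
over the closed points `z` of the plane with `D(t) ≠ 0`, where `χ(z)` is the quadratic character of
the residue field of `z` at `D(t) (x - t) f(x)`, times the product of the factors of the points
`x = ∞` of the fibres, `1 - χ(P) T ^ deg P` with the quadratic character `χ(P)` of the residue field
of `P` at `D`, times the factor at `t = ∞`. -/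
noncomputable def Lfun (f D : k[X]) : PowerSeries ℤ :=
  eulerProduct (fun z : PlanePt D => z.deg) (fun z => z.factor f) * lineProduct D *
    infFactor f D

/-- `L(T) = (1 - q T) ^ m G(T)` with an integral polynomial `G`: the function vanishes to order at
least `m` at `s = 1`. -/
def VanishesTo (f D : k[X]) (m : ℕ) : Prop :=
  ∃ G : ℤ[X], Lfun f D = (((1 - C (Nat.card k : ℤ) * X) ^ m * G : ℤ[X]) : PowerSeries ℤ)

open Classical in
/-- The monic irreducible factors of a polynomial. -/
noncomputable def primes (g : k[X]) : Finset k[X] :=
  (UniqueFactorizationMonoid.normalizedFactors g).toFinset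

/-- One plus the sum of the `(gcd(deg P, n) - 1) * 2 ^ v(deg P)` over the prime factors `P` of
`D`. -/
noncomputable def bound (n : ℕ) (D : k[X]) : ℕ :=
  1 + ∑ P ∈ primes D, (Nat.gcd P.natDegree n - 1) * twoPart P.natDegree

/-- The polynomial `f` is monic and irreducible of odd degree at least three. -/
structure IsAdmissible (f : k[X]) : Prop where
  monic : f.Monic
  irreducible : Irreducible f
  odd : Odd f.natDegree
  degree : 3 ≤ f.natDegree

/-- the equivalence of the two descriptions of the points of the plane -/
noncomputable def planeEquiv (D : k[X]) :
    (Σ P : {P : Pool.Agent.W313.Hyp.MI k // ¬ P.1 ∣ D},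
      Pool.Agent.W313.Hyp.MI (Pool.Agent.TH943.HJ.RF P.1)) ≃ PlanePt D where
  toFun z := ⟨z.1.1, z.1.2, z.2⟩
  invFun z := ⟨⟨z.place, z.ndvd⟩, z.point⟩
  left_inv _ := rfl
  right_inv _ := rfl

theorem Lfun_eq {f : k[X]} (ho : Odd f.natDegree) (D : k[X]) :
    Lfun f D = Pool.Agent.TH943.LP.LL f X D := by
  unfold Lfun Pool.Agent.TH943.LP.LL
  congr 1
  · congr 1
    · unfold Pool.Agent.TH943.LP.LF eulerProduct Pool.Agent.W343.BSD.eulerProd
      ext n
      rw [PowerSeries.coeff_mk, PowerSeries.coeff_mk]
      congr 1
      exact (finprod_comp_equiv (planeEquiv D)
        (f := fun z : PlanePt D => ∏ᶠ (_ : z.deg ≤ n), z.factor f)).symm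
    · unfold Pool.Agent.TH943.LP.infX
      rw [if_pos ho]
      rfl
  · unfold infFactor Pool.Agent.TH943.LP.infT
    have h1 : Even ((X : k[X]).natDegree + D.natDegree) ↔ Odd D.natDegree := by
      rw [natDegree_X, add_comm, Nat.even_add_one, Nat.not_even_iff_odd]
    rw [leadingCoeff_X, one_mul]
    by_cases h : Odd D.natDegree
    · rw [if_pos h, if_pos (h1.2 h)]
      rfl
    · rw [if_neg h, if_neg (fun h' => h (h1.1 h'))]

end defs

/-- **The Birch and Swinnerton-Dyer conjecture for twists of hyperelliptic Jacobians with big
monodromy.**

Let `k` be a finite field with `q` elements of odd characteristic and `f` a monic irreducible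
polynomial over `k` of odd degree `n = 2 g + 1 ≥ 3`. For a squarefree polynomial `D` over `k` let
`J_D` be the Jacobian, of dimension `g`, of the curve `D(t) y ^ 2 = (x - t) f(x)` over `K = k(t)`. It
is not isotrivial (over `k(t, √D)` there is a toric part of dimension one at the zeros of `f(t)`), and
the geometric monodromy group of the family is known to be Zariski dense in `Sp(2 g)`. At the places
dividing `D` there are no inertia invariants; at the zeros of `f(t)`, if they are not zeros of `D`, the
fibre is semistable with one node; the other finite places are places of good reduction. At infinity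
`D(t) (x - t)` is `- c t ^ (deg D + 1)` times a square, `c` the leading coefficient of `D`; so there is
the good reduction `y ^ 2 = - c f(x)` for odd degree of `D`, and its ramified twist, without
invariants, for even degree. Hence the L-function of `J_D` is `Lfun`, a polynomial in `T = q ^ (-s)`.

Let `ε` in `k` not be a square. For every squarefree polynomial `D` the sum of the orders of
vanishing at `s = 1` of `L(J_D, s)` and of `L(J_{ε D}, s)` is at most
`1 + ∑ (gcd(deg P, n) - 1) * 2 ^ v(deg P)`, the sum over the prime factors `P` of `D`, where `v` is
the 2-adic valuation.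

In particular, if the degrees of all prime factors of `D` are prime to `n`, then one of the functions
`L(J_D, s)` and `L(J_{ε D}, s)` does not vanish at `s = 1`, and the other vanishes to order at most
one. If `n` is a prime number this holds for every squarefree `D` of degree less than `n`, and
for all products of primes of degree not divisible by `n`. For the twist with the function not
vanishing at `s = 1`, by Tate's inequality, the rank and the order are both zero, the
Tate-Shafarevich group is finite and the Birch and Swinnerton-Dyer formula holds. -/
theorem result (k : Type) [Field k] [Finite k] (h2 : (2 : k) ≠ 0) (f : k[X])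
    (hf : IsAdmissible f) (D : k[X]) (hD : Squarefree D) (ε : k) (hε : ¬ IsSquare ε) (m m' : ℕ)
    (hm : VanishesTo f D m) (hm' : VanishesTo f (C ε * D) m') :
    m + m' ≤ bound f.natDegree D := by
  obtain ⟨G, hG⟩ := hm
  obtain ⟨G', hG'⟩ := hm'
  rw [Lfun_eq hf.odd] at hG hG'
  obtain ⟨G0, hG0⟩ := Pool.Agent.TH943.LP.combine h2 hε f X D m m' G G' hG hG'
  exact Pool.Agent.TH943.LP.bound_irreducible h2 hf.monic hf.irreducible hf.odd hD.ne_zero
    m m' G0 hG0

end Pool.Agent.Results.MP_60d5ce_nt.IrreduciblePencils
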