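import Pool.Agent.TH639.SE.Bnd

/-!
The orders of vanishing at `s = 1` of the L-functions of all twists of the Jacobians of the
superelliptic curves `y ^ ℓ = (x - h(t)) f(x)` over `k(t)`, for odd primes `ℓ`.
-/

set_option autoImplicit false
set_option maxHeartbeats 1000000

open Polynomial

namespace Pool.Agent.Results.MP_60d5ce_nt.SuperellipticPencils

/-- The closed points of the affine line over the field `F`: monic irreducible polynomials. -/
abbrev ClosedPt (F : Type) [Field F] : Type := {P : F[X] // P.Monic ∧ Irreducible P}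

section generic

variable {F : Type} [Field F]

open Classical in
/-- The Euler factor of the Jacobian of `y ^ ℓ = g(x)` at the closed point `Q` of degree `n`: the
product of `1 - χ(g) T ^ n` over the nontrivial characters `χ` of order `ℓ` of the residue field of
`Q`. It is `1` if `g` vanishes at `Q`, the power `(1 - T ^ n) ^ (ℓ - 1)` if `g` is an `ℓ`-th power at
`Q`, and `1 + T ^ n + ... + T ^ (n (ℓ - 1))` otherwise. -/
noncomputable def localFactor (ℓ : ℕ) (g Q : F[X]) (n : ℕ) : PowerSeries ℤ :=
  if Q ∣ g then 1 else if ∃ s : F[X], Q ∣ g - s ^ ℓ then (1 - PowerSeries.X ^ n) ^ (ℓ - 1)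
  else ∑ i ∈ Finset.range ℓ, (PowerSeries.X ^ n) ^ i

end generic

/-- The Euler product: its coefficient of index `n` is that of the product of the factors of degree
at most `n`. -/
noncomputable def eulerProduct {ι : Type} (d : ι → ℕ) (f : ι → PowerSeries ℤ) : PowerSeries ℤ :=
  PowerSeries.mk fun n => PowerSeries.coeff n (∏ᶠ (i : ι) (_ : d i ≤ n), f i)

/-- The product of the factors for `g` over the closed points of the affine line over `F`. -/
noncomputable def lineProduct {F : Type} [Field F] (ℓ : ℕ) (g : F[X]) : PowerSeries ℤ :=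
  eulerProduct (fun Q : ClosedPt F => 1 * Q.1.natDegree)
    (fun Q => localFactor ℓ g Q.1 (1 * Q.1.natDegree))

section defs

variable {k : Type} [Field k]

/-- The residue field of the closed point `P` of the `t`-line. -/
def Res (P : ClosedPt k) : Type := AdjoinRoot P.1

noncomputable instance resField (P : ClosedPt k) : Field (Res P) :=
  @AdjoinRoot.instField k _ P.1 ⟨P.2.2⟩

/-- The value at `P` of a polynomial in `t`. -/
noncomputable def value (P : ClosedPt k) (g : k[X]) : Res P := AdjoinRoot.mk P.1 g

/-- The inclusion of the constants in the residue field. -/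
noncomputable def constants (P : ClosedPt k) : k →+* Res P := AdjoinRoot.of P.1

/-- The polynomial `D(t) (x - h(t)) f(x)` in `x` over the residue field of the closed point `P`. -/
noncomputable def fibre (f h D : k[X]) (P : ClosedPt k) : (Res P)[X] :=
  C (value P D) * ((X - C (value P h)) * f.map (constants P))

/-- The closed points of the `(t, x)`-plane with `D(t) ≠ 0`: a closed point of the `t`-line and a
closed point of the `x`-line over its residue field. -/
structure PlanePt (D : k[X]) : Type where
  place : ClosedPt k
  ndvd : ¬ place.1 ∣ D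
  point : ClosedPt (Res place)

/-- The degree of a closed point of the plane. -/
noncomputable def PlanePt.deg {D : k[X]} (z : PlanePt D) : ℕ :=
  z.place.1.natDegree * z.point.1.natDegree

/-- The Euler factor of a closed point of the plane. -/
noncomputable def PlanePt.factor {D : k[X]} (ℓ : ℕ) (f h : k[X]) (z : PlanePt D) :
    PowerSeries ℤ :=
  localFactor ℓ (fibre f h D z.place) z.point.1 z.deg

open Classical in
/-- The Euler factor at `t = ∞`: if `ℓ` divides `deg h + deg D` then the curve has the good reduction
`y ^ ℓ = c f(x)`, where `- c` is the product of the leading coefficients of `h` and `D`; otherwise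
the factor is one. -/
noncomputable def infFactor (ℓ : ℕ) (f h D : k[X]) : PowerSeries ℤ :=
  if ℓ ∣ h.natDegree + D.natDegree then
    lineProduct ℓ (C (-(h.leadingCoeff * D.leadingCoeff)) * f) else 1

/-- The `L`-function in the variable `T = q ^ (-s)` of the Jacobian of the curve
`y ^ ℓ = D(t) (x - h(t)) f(x)` over `k(t)`, where `f` is monic of degree congruent to `- 1` modulo
`ℓ`: the product of the factors of the closed points of the plane with `D(t) ≠ 0`, times the product
of the factors of the points `x = ∞` of the fibres, which are the factors for the values of `D`,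
times the factor at `t = ∞`. -/
noncomputable def Lfun (ℓ : ℕ) (f h D : k[X]) : PowerSeries ℤ :=
  eulerProduct (fun z : PlanePt D => z.deg) (fun z => z.factor ℓ f h) * lineProduct ℓ D *
    infFactor ℓ f h D

/-- `L(T) = (1 - q T) ^ m G(T)` with an integral polynomial `G`: the function vanishes to order at
least `m` at `s = 1`. -/
def VanishesTo (ℓ : ℕ) (f h D : k[X]) (m : ℕ) : Prop :=
  ∃ G : ℤ[X], Lfun ℓ f h D =
    (((1 - C (Nat.card k : ℤ) * X) ^ m * G : ℤ[X]) : PowerSeries ℤ)

open Classical in
/-- The monic irreducible factors of a polynomial. -/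
noncomputable def primes (g : k[X]) : Finset k[X] :=
  (UniqueFactorizationMonoid.normalizedFactors g).toFinset

/-- The greatest power of `ℓ` dividing `n`. -/
def lPart (ℓ n : ℕ) : ℤ := (ℓ : ℤ) ^ padicValNat ℓ n

open Classical in
/-- The bound: one, plus the sum of `lPart (deg P)` over the prime factors `P` of `f(h(t))`, plus the
sum over the prime factors `P` of `D` of the differences of the sum of
`gcd(deg P, deg R) * lPart (lcm(deg P, deg R))` over the prime factors `R` of `f` and of
`lPart (deg P)`, minus the sum of `lPart (deg R)` over the prime factors `R` of `f`, plus, if `ℓ`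
divides `deg h + deg D`, the difference of one and of the last sum. -/
noncomputable def bound (ℓ : ℕ) (f h D : k[X]) : ℤ :=
  1 + ∑ P ∈ primes (f.comp h), lPart ℓ P.natDegree +
    ∑ P ∈ primes D, (∑ R ∈ primes f, (Nat.gcd P.natDegree R.natDegree : ℤ) *
      lPart ℓ (Nat.lcm P.natDegree R.natDegree) - lPart ℓ P.natDegree) -
    ∑ R ∈ primes f, lPart ℓ R.natDegree +
    (if ℓ ∣ h.natDegree + D.natDegree then 1 - ∑ R ∈ primes f, lPart ℓ R.natDegree else 0)

/-- The polynomial `f` is monic of degree congruent to `- 1` modulo `ℓ`, and `h` is a polynomial of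
positive degree such that `f(h(t))` is squarefree. -/
structure IsAdmissible (ℓ : ℕ) (f h : k[X]) : Prop where
  monic : f.Monic
  degree : ℓ ∣ f.natDegree + 1
  nonconstant : 0 < h.natDegree
  squarefree : Squarefree (f.comp h)

/-- The polynomial `D` is not zero, has no divisor which is the `ℓ`-th power of an irreducible
polynomial, and is prime to `f(h(t))`. -/
structure IsTwist (ℓ : ℕ) (f h D : k[X]) : Prop where
  ne_zero : D ≠ 0
  powerFree : ∀ P : k[X], Irreducible P → ¬ P ^ ℓ ∣ D
  coprime : IsCoprime D (f.comp h)

/-- the equivalence of the two descriptions of the points of the plane -/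
noncomputable def planeEquiv (D : k[X]) :
    (Σ P : {P : Pool.Agent.W313.Hyp.MI k // ¬ P.1 ∣ D},
      Pool.Agent.W313.Hyp.MI (Pool.Agent.TH943.HJ.RF P.1)) ≃ PlanePt D where
  toFun z := ⟨z.1.1, z.1.2, z.2⟩
  invFun z := ⟨⟨z.place, z.ndvd⟩, z.point⟩
  left_inv _ := rfl
  right_inv _ := rfl

theorem Lfun_eq (ℓ : ℕ) (f h D : k[X]) :
    Lfun ℓ f h D = Pool.Agent.TH639.SE.LL ℓ f h D := by
  unfold Lfun Pool.Agent.TH639.SE.LL
  congr 1
  congr 1
  unfold Pool.Agent.TH639.SE.LF eulerProduct Pool.Agent.W343.BSD.eulerProd
  ext n
  rw [PowerSeries.coeff_mk, PowerSeries.coeff_mk]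
  congr 1
  exact (finprod_comp_equiv (planeEquiv D)
    (f := fun z : PlanePt D => ∏ᶠ (_ : z.deg ≤ n), z.factor ℓ f h)).symm

theorem bound_eq (ℓ : ℕ) (f h D : k[X]) : bound ℓ f h D = Pool.Agent.TH639.SE.bnd ℓ f h D := rfl

end defs

/-- **The Birch and Swinnerton-Dyer conjecture for twists of superelliptic Jacobians.**

Let `ℓ` be an odd prime and `k` a finite field with `q` elements, `q` congruent to one modulo `ℓ`.
Let `f` in `k[x]` be monic of degree `n` congruent to `- 1` modulo `ℓ`, and `h` in `k[t]` of positive
degree with `f(h(t))` squarefree. For an `ℓ`-power-free polynomial `D` in `k[t]` prime to `f(h(t))`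
let `J_D` be the Jacobian, of dimension `(ℓ - 1) (n - 1) / 2`, of the curve
`y ^ ℓ = D(t) (x - h(t)) f(x)` over `K = k(t)`. The curve has good reduction at the finite places
prime to `D(t) f(h(t))`; at the zeros of `f(h(t))` two branch points with the same local monodromy
come together, simply, so that the cohomology of the special curve is the space of inertia
invariants (as `ℓ` is odd, in codimension one for each character); at the zeros of `D` the curve is a
ramified twist, by a character of order `ℓ`, of a curve with good reduction, and there are no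
invariants; at infinity `D(t) (x - h(t))` is a constant times `t ^ (deg D + deg h)` times an `ℓ`-th
power, so that there is the good reduction `y ^ ℓ = c f(x)` if `ℓ` divides `deg D + deg h`, and its
ramified twist, without invariants, otherwise. Hence the L-function of `J_D` is `Lfun`, a polynomial
in `T = q ^ (-s)`. Note that the characteristic of `k` can be two.

Let `e` in `k` not be an `ℓ`-th power. Then the sum of the orders of vanishing at `s = 1` of the `ℓ`
functions `L(J_{e ^ j D}, s)`, `j = 0, ..., ℓ - 1`, is at most `ℓ - 1` times `bound`. If the bound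
is one then for at least one of the `ℓ` twists the L-function does not vanish at `s = 1`. By Tate's
inequality and the theorem of Kato and Trihan the rank of this twist is zero and the full Birch and
Swinnerton-Dyer conjecture holds for it.

If `h = t` and `f` is irreducible then the bound is
`1 + ∑ (gcd(deg P, n) - 1) lPart(deg P)`, the sum over the prime factors `P` of `D`; it is one if the
degrees of the prime factors of `D` are prime to `n`, for instance if `n` is prime and the degree of
`D` is less than `n`. If `h = t`, and `D` is irreducible of degree congruent to `- 1` modulo `ℓ` and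
prime to the degrees of the prime factors of `f`, then the bound is one, for all polynomials `f`. -/
theorem result (ℓ : ℕ) (hℓ : ℓ.Prime) (_h2 : ℓ ≠ 2) (k : Type) [Field k] [Finite k]
    (hq : ℓ ∣ Nat.card k - 1) (f h D : k[X]) (hf : IsAdmissible ℓ f h) (hD : IsTwist ℓ f h D)
    (e : k) (he : ∀ v : k, v ^ ℓ ≠ e) :
    (∀ r : ℕ → ℕ, (∀ j < ℓ, VanishesTo ℓ f h (C (e ^ j) * D) (r j)) →
      (∑ j ∈ Finset.range ℓ, (r j : ℤ)) ≤ ((ℓ : ℤ) - 1) * bound ℓ f h D) ∧
    (bound ℓ f h D = 1 → ∃ j < ℓ, ¬ VanishesTo ℓ f h (C (e ^ j) * D) 1) ∧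
    (h = X → Irreducible f → bound ℓ f h D =
      1 + ∑ P ∈ primes D, ((Nat.gcd P.natDegree f.natDegree : ℤ) - 1) * lPart ℓ P.natDegree) ∧
    (h = X → Irreducible D → ℓ ∣ D.natDegree + 1 →
      (∀ R ∈ primes f, Nat.Coprime D.natDegree R.natDegree) → bound ℓ f h D = 1) := by
  have hF : Fact ℓ.Prime := ⟨hℓ⟩
  have hf0 : f ≠ 0 := hf.monic.ne_zero
  have hh0 : h ≠ 0 := by
    rintro rfl
    have := hf.nonconstant
    simp at this
  have hfh0 : f.comp h ≠ 0 := hf.squarefree.ne_zero
  have hk1 : 1 < Nat.card k := Finite.one_lt_card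
  have hq' : ((Nat.card k : ℕ) : ZMod ℓ) = 1 := by
    have h1 := (ZMod.natCast_eq_zero_iff _ _).2 hq
    rw [Nat.cast_sub hk1.le, Nat.cast_one, sub_eq_zero] at h1
    exact h1
  have hmain : ∀ r : ℕ → ℕ, (∀ j < ℓ, VanishesTo ℓ f h (C (e ^ j) * D) (r j)) →
      (∑ j ∈ Finset.range ℓ, (r j : ℤ)) ≤ ((ℓ : ℤ) - 1) * bound ℓ f h D := by
    intro r hr
    have h1 := Pool.Agent.TH639.SE.order_sum hq' (e := e) (by push Not; exact he) hf0 hfh0 hh0
      hD.ne_zero r (fun j hj => by
        obtain ⟨G, hG⟩ := hr j hj
        exact ⟨G, by rw [← Lfun_eq]; exact hG⟩)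
    rw [bound_eq, ← Pool.Agent.TH639.SE.bnd_eq ℓ hf0 hfh0 hD.ne_zero hD.coprime]
    have h2 : ((ℓ - 1 : ℕ) : ℤ) = (ℓ : ℤ) - 1 := by
      rw [Nat.cast_sub hℓ.one_lt.le, Nat.cast_one]
    zify at h1
    rw [h2] at h1
    linarith
  refine ⟨hmain, ?_, ?_, ?_⟩
  · intro hb
    by_contra hcon
    push Not at hcon
    have h1 := hmain (fun _ => 1) hcon
    rw [hb] at h1
    simp at h1
  · rintro rfl hfi
    exact Pool.Agent.TH639.SE.bnd_irreducible hℓ hf.monic hfi hf.degree
  · rintro rfl hDi hd hcop
    exact Pool.Agent.TH639.SE.bnd_prime hℓ hf0 hDi hd hcop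

end Pool.Agent.Results.MP_60d5ce_nt.SuperellipticPencils
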