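import Pool.Agent.TH958.SJ.Fin

/-!
# Jacobians over `k(u)` with rank equal to the order of vanishing, both unbounded

Let `ℓ` be an odd prime, `p` a prime and `ν ≥ 1` with `ℓ ∣ d = p ^ ν + 1`, and let `k` be a finite
field with `p ^ (2 ν n)` elements. Let `h` in `k[u]` be irreducible of degree not divisible by `ℓ`,
such that `h - z` is irreducible for all `z` in `k` with `z ^ d = 1`. Let `J` be the Jacobian, of
dimension `ℓ - 1`, of `y ^ ℓ = x ^ (ℓ - 1) (x + 1) (x + h ^ d)` over `k(u)`. Then `J(k(u))` has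
`(ℓ - 1) (p ^ ν - 1)` linearly independent elements, and the `L`-function of `J` vanishes at
`T = 1 / |k|` to order at most `(ℓ - 1) (p ^ ν - 1)`. For all `ℓ`, `p`, `ν` there are such `k` and
`h`, with `h` of arbitrarily large degree, and for every `ℓ` the number `(ℓ - 1) (p ^ ν - 1)` can be
arbitrarily large.
-/

open Polynomial

namespace Pool.Agent.Results.MP_60d5ce_nt.SuperellipticPullbacks

open Pool.Agent.TH958.SJ

theorem result :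
    (∀ ℓ p ν : ℕ, ℓ.Prime → ℓ ≠ 2 → p.Prime → 1 ≤ ν → ℓ ∣ p ^ ν + 1 →
      ∀ (k : Type) [Field k] [Finite k] (n : ℕ), Nat.card k = p ^ (2 * ν * n) →
      ∀ h : k[X], Good ℓ (p ^ ν + 1) h →
      RankAndOrder k ℓ (p ^ ν + 1) h ((ℓ - 1) * (p ^ ν - 1))) ∧
    (∀ ℓ p ν : ℕ, ℓ.Prime → ℓ ≠ 2 → p.Prime → 1 ≤ ν → ℓ ∣ p ^ ν + 1 →
      ∃ (k : Type) (_ : Field k) (_ : Finite k) (n : ℕ), Nat.card k = p ^ (2 * ν * n) ∧
        ∀ N : ℕ, ∃ h : k[X], N ≤ h.natDegree ∧ Good ℓ (p ^ ν + 1) h) ∧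
    (∀ ℓ : ℕ, ℓ.Prime → ℓ ≠ 2 → ∀ R : ℕ, ∃ p ν : ℕ, p.Prime ∧ 1 ≤ ν ∧ ℓ ∣ p ^ ν + 1 ∧
      R ≤ (ℓ - 1) * (p ^ ν - 1)) := by
  refine ⟨?_, ?_, ?_⟩
  · intro ℓ p ν hℓ hodd hp hν hd k _ _ n hcard h hg
    exact ⟨lower hℓ hodd hp hν hd hcard hg, upper hℓ hp hν hd hcard hg⟩
  · intro ℓ p ν hℓ _ hp hν hd
    exact exists_good hℓ hp hν hd
  · intro ℓ hℓ hodd R
    obtain ⟨p, hp, hd, hR⟩ := exists_large hℓ hodd R
    exact ⟨p, 1, hp, le_rfl, hd, hR⟩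

end Pool.Agent.Results.MP_60d5ce_nt.SuperellipticPullbacks
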